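import Pool.Agent.P.MP_4fa782_ag.Defs

namespace Pool.Agent.P.MP_4fa782_ag

open AdicCompletion

section general

variable {A B C : Type} [CommRing A] [CommRing B] [CommRing C]

theorem pow_le_comap_pow {I : Ideal A} {J : Ideal B} (g : A →+* B) (h : I ≤ J.comap g) (n : ℕ) :
    I ^ n ≤ (J ^ n).comap g :=
  (Ideal.pow_right_mono h n).trans (Ideal.le_comap_pow g n)

theorem cmap_compat {I : Ideal A} {J : Ideal B} (g : A →+* B) (h : I ≤ J.comap g) {m n : ℕ}
    (hle : m ≤ n) :
    (Ideal.Quotient.factorPow J hle).comp
      ((Ideal.quotientMap (J ^ n) g (pow_le_comap_pow g h n)).comp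
        (evalₐ I n : AdicCompletion I A →+* A ⧸ I ^ n)) =
      (Ideal.quotientMap (J ^ m) g (pow_le_comap_pow g h m)).comp
        (evalₐ I m : AdicCompletion I A →+* A ⧸ I ^ m) := by
  ext x
  induction x using AdicCompletion.induction_on with
  | _ x =>
    simp only [RingHom.coe_comp, RingHom.coe_coe, Function.comp_apply, evalₐ_mk,
      Ideal.quotientMap_mk, Ideal.Quotient.factorPow, Ideal.Quotient.factor_mk]
    rw [Ideal.Quotient.eq, ← map_sub]
    apply pow_le_comap_pow g h m
    rw [← Ideal.Quotient.eq]
    exact AdicCompletion.Ideal.mk_eq_mk I hle x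

/-- The map induced on adic completions. -/
noncomputable def cmap {I : Ideal A} {J : Ideal B} (g : A →+* B) (h : I ≤ J.comap g) :
    AdicCompletion I A →+* AdicCompletion J B :=
  AdicCompletion.liftRingHom J
    (fun n => (Ideal.quotientMap (J ^ n) g (pow_le_comap_pow g h n)).comp
      (evalₐ I n : AdicCompletion I A →+* A ⧸ I ^ n)) (cmap_compat g h)

theorem evalₐ_cmap {I : Ideal A} {J : Ideal B} (g : A →+* B) (h : I ≤ J.comap g) (n : ℕ)
    (x : AdicCompletion I A) (a : A) (hx : evalₐ I n x = Ideal.Quotient.mk _ a) :
    evalₐ J n (cmap g h x) = Ideal.Quotient.mk _ (g a) := by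
  unfold cmap
  rw [evalₐ_liftRingHom _ _ (cmap_compat g h)]
  simp [hx]

theorem exists_isInduced (g : A →+* B) (h : Ring.jacobson A ≤ (Ring.jacobson B).comap g) :
    ∃ G : Completion A →+* Completion B, IsInduced g G :=
  ⟨cmap g h, fun n x a hx => evalₐ_cmap g h n x a hx⟩

theorem IsInduced.algebraMap {g : A →+* B} {G : Completion A →+* Completion B}
    (hG : IsInduced g G) (a : A) :
    G (algebraMap A (Completion A) a) = algebraMap B (Completion B) (g a) := by
  apply ext_evalₐ
  intro n
  rw [hG n _ a (by simp [Congr, AdicCompletion.algebraMap_apply])]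
  simp [AdicCompletion.algebraMap_apply]

theorem IsInduced.comp {g : A →+* B} {G : Completion A →+* Completion B} {k : B →+* C}
    {K : Completion B →+* Completion C} (hG : IsInduced g G) (hK : IsInduced k K) :
    IsInduced (k.comp g) (K.comp G) :=
  fun n x a hx => hK n _ _ (hG n x a hx)

theorem IsInduced.eq_self {g : A →+* A} {G : Completion A →+* Completion A}
    (hG : IsInduced g G) (hg : ∀ a, g a = a) (x : Completion A) : G x = x := by
  apply ext_evalₐ
  intro n
  obtain ⟨a, ha⟩ := Ideal.Quotient.mk_surjective (evalₐ (Ring.jacobson A) n x)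
  rw [hG n x a ha.symm, hg, ha]

theorem jacobson_le_comap_of_surjective (g : A →+* B) (hg : Function.Surjective g) :
    Ring.jacobson A ≤ (Ring.jacobson B).comap g := by
  have : RingHomSurjective g := ⟨hg⟩
  exact Ring.le_comap_jacobson g

/-- A nonzero divisor of a noetherian ring stays a nonzero divisor in the completion. -/
theorem algebraMap_mem_nonZeroDivisors [IsNoetherianRing A] {d : A} (hd : d ∈ nonZeroDivisors A) :
    algebraMap A (Completion A) d ∈ nonZeroDivisors (Completion A) := by
  have h2 : IsSMulRegular (Completion A) d := Module.Flat.isSMulRegular_of_nonZeroDivisors hd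
  rw [mem_nonZeroDivisors_iff_left]
  intro x hx
  apply h2
  simpa [Algebra.smul_def] using hx

/-- Ideals of a noetherian ring are contracted from the completion (principal case). -/
theorem dvd_of_dvd_completion [IsNoetherianRing A] {s a : A}
    (h : algebraMap A (Completion A) s ∣ algebraMap A (Completion A) a) : s ∣ a := by
  obtain ⟨z, hz⟩ := h
  have hH : IsHausdorff (Ring.jacobson A) (A ⧸ Ideal.span {s}) :=
    IsHausdorff.of_le_jacobson _ _ (by rw [Ideal.jacobson_bot])
  rw [← Ideal.mem_span_singleton, ← Ideal.Quotient.eq_zero_iff_mem]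
  apply hH.haus
  intro n
  obtain ⟨b, hb⟩ := Ideal.Quotient.mk_surjective (evalₐ (Ring.jacobson A) n z)
  have h1 := congrArg (evalₐ (Ring.jacobson A) n) hz
  rw [map_mul, ← hb] at h1
  simp only [AdicCompletion.algebraMap_apply, Algebra.algebraMap_self, RingHom.id_apply,
    evalₐ_of] at h1
  rw [← map_mul, Ideal.Quotient.eq] at h1
  rw [SModEq.zero]
  have h2 : Ideal.Quotient.mk (Ideal.span {s}) a = (a - s * b) • (1 : A ⧸ Ideal.span {s}) := by
    rw [Algebra.smul_def, mul_one, Ideal.Quotient.algebraMap_eq, Ideal.Quotient.eq]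
    simp [Ideal.mem_span_singleton]
  rw [h2]
  exact Submodule.smul_mem_smul h1 trivial

theorem algebraMap_completion_injective [IsNoetherianRing A] :
    Function.Injective (algebraMap A (Completion A)) := by
  rw [injective_iff_map_eq_zero]
  intro a ha
  have : (0 : A) ∣ a := dvd_of_dvd_completion (by rw [ha, _root_.map_zero])
  exact zero_dvd_iff.mp this

/-- Square root of `1 + s` in the completion of a local ring containing the rationals. -/
theorem exists_sqrt [IsNoetherianRing A] [IsLocalRing A] (h2 : IsUnit (2 : A)) {s : A}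
    (hs : s ∈ IsLocalRing.maximalIdeal A) :
    ∃ w : Completion A, w ^ 2 = 1 + algebraMap A (Completion A) s := by
  have hfg : (Ring.jacobson A).FG := IsNoetherian.noetherian _
  have hc := AdicCompletion.isAdicComplete_self (Ring.jacobson A) hfg
  set I := (Ring.jacobson A).map (algebraMap A (Completion A)) with hI
  have hH : HenselianRing (Completion A) I := IsAdicComplete.henselianRing _ I
  have hsI : algebraMap A (Completion A) s ∈ I := by
    apply Ideal.mem_map_of_mem
    rwa [IsLocalRing.ringJacobson_eq_maximalIdeal]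
  obtain ⟨w, hw, -⟩ := hH.is_henselian
    (Polynomial.X ^ 2 - Polynomial.C (1 + algebraMap A (Completion A) s))
    (Polynomial.monic_X_pow_sub_C _ (by norm_num)) 1
    (by simpa using hsI)
    (by
      have : IsUnit (2 : Completion A) := by
        have := h2.map (algebraMap A (Completion A))
        rwa [map_ofNat] at this
      have h3 := this.map (Ideal.Quotient.mk I)
      convert h3 using 2
      simp
      norm_num)
  refine ⟨w, ?_⟩
  have : w ^ 2 - (1 + algebraMap A (Completion A) s) = 0 := by simpa using hw
  exact sub_eq_zero.mp this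

end general

end Pool.Agent.P.MP_4fa782_ag
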