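import Pool.Agent.P.MP_4fa782_ag.Nagata
import Pool.Agent.P.MP_4fa782_ag.Compl

namespace Pool.Agent.P.MP_4fa782_ag

open MvPolynomial

/-- The polynomial ring in two variables. -/
abbrev PA : Type := MvPolynomial (Fin 2) ℚ

/-- The ideal of the origin. -/
noncomputable abbrev PP : Ideal PA := idealOfVars (Fin 2) ℚ

theorem mem_PP (p : PA) : p ∈ PP ↔ constantCoeff p = 0 := by
  have h := mem_pow_idealOfVars_iff' (σ := Fin 2) (R := ℚ) 1 p
  rw [pow_one] at h
  rw [h]
  constructor
  · intro H
    exact H 0 (by simp)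
  · intro H x hx
    have : x = 0 := by
      rw [← Finsupp.degree_eq_zero_iff]
      omega
    rw [this]
    exact H

theorem PP_eq_ker : PP = RingHom.ker (constantCoeff : PA →+* ℚ) := by
  ext p
  rw [mem_PP, RingHom.mem_ker]

instance PP_isMaximal : PP.IsMaximal := by
  rw [PP_eq_ker]
  apply RingHom.ker_isMaximal_of_surjective
  intro c
  exact ⟨C c, by simp⟩

/-- The local ring of the plane at the origin. -/
abbrev RR : Type := Localization.AtPrime PP

/-- The nodal cubic. -/
noncomputable def fA : PA := X 0 ^ 2 - X 1 ^ 2 * (1 + X 1)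

theorem irreducible_fA : Irreducible fA := by
  have e := MulEquiv.irreducible_iff (x := fA) (finSuccEquiv ℚ 1)
  rw [← e]
  have h1 : finSuccEquiv ℚ 1 fA =
      Polynomial.X ^ 2 - Polynomial.C (X 0 ^ 2 * (1 + X 0) : MvPolynomial (Fin 1) ℚ) := by
    have : (1 : Fin 2) = Fin.succ 0 := rfl
    simp only [fA, map_sub, map_pow, map_mul, map_add, map_one, finSuccEquiv_X_zero]
    rw [this, finSuccEquiv_X_succ]
  rw [h1]
  have hm : (Polynomial.X ^ 2 -
      Polynomial.C (X 0 ^ 2 * (1 + X 0) : MvPolynomial (Fin 1) ℚ)).Monic :=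
    Polynomial.monic_X_pow_sub_C _ (by norm_num)
  have hd : (Polynomial.X ^ 2 -
      Polynomial.C (X 0 ^ 2 * (1 + X 0) : MvPolynomial (Fin 1) ℚ)).natDegree = 2 :=
    Polynomial.natDegree_X_pow_sub_C
  rw [hm.irreducible_iff_roots_eq_zero_of_degree_le_three (by omega) (by omega)]
  rw [Multiset.eq_zero_iff_forall_notMem]
  intro r hr
  have h2 := (Polynomial.mem_roots hm.ne_zero).mp hr
  simp only [Polynomial.IsRoot.def, Polynomial.eval_sub, Polynomial.eval_pow, Polynomial.eval_X,
    Polynomial.eval_C] at h2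
  have h3 := congrArg (MvPolynomial.eval (fun _ : Fin 1 => (-2 : ℚ))) h2
  simp only [map_sub, map_pow, map_mul, map_add, map_one, eval_X, map_zero] at h3
  nlinarith [sq_nonneg (MvPolynomial.eval (fun _ : Fin 1 => (-2 : ℚ)) r)]

theorem algebraMap_RR_injective : Function.Injective (algebraMap PA RR) :=
  IsLocalization.injective RR PP.primeCompl_le_nonZeroDivisors

theorem prime_fR : Prime (algebraMap PA RR fA) := by
  have hp : Prime fA := irreducible_fA.prime
  have h0 : algebraMap PA RR fA ≠ 0 := (map_ne_zero_iff _ algebraMap_RR_injective).mpr hp.ne_zero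
  rw [← Ideal.span_singleton_prime h0]
  have h1 : (Ideal.span {fA}).IsPrime := (Ideal.span_singleton_prime hp.ne_zero).mpr hp
  have h2 : Ideal.span {fA} ≤ PP := by
    rw [Ideal.span_singleton_le_iff_mem, mem_PP]
    simp [fA]
  have h3 := IsLocalization.isPrime_of_isPrime_disjoint PP.primeCompl RR _ h1
    (Set.disjoint_compl_left_iff_subset.mpr h2)
  rwa [Ideal.map_span, Set.image_singleton] at h3

theorem X_mem_max (i : Fin 2) : algebraMap PA RR (X i) ∈ IsLocalRing.maximalIdeal RR := by
  rw [IsLocalization.AtPrime.to_map_mem_maximal_iff RR PP, mem_PP]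
  simp

theorem ringKrullDim_RR : ringKrullDim RR = 2 := by
  rw [IsLocalization.AtPrime.ringKrullDim_eq_height PP RR]
  apply le_antisymm
  · have h1 : ringKrullDim PA = 2 := by
      rw [MvPolynomial.ringKrullDim_of_isNoetherianRing]
      simp
    rw [← h1]
    exact Ideal.height_le_ringKrullDim_of_isPrime
  · have hX : Prime (X 0 : PA) := X_prime
    have h1 : (Ideal.span {(X 0 : PA)}).IsPrime := (Ideal.span_singleton_prime hX.ne_zero).mpr hX
    have h2 : (⊥ : Ideal PA) < Ideal.span {(X 0 : PA)} := by
      rw [bot_lt_iff_ne_bot, Ne, Ideal.span_singleton_eq_bot]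
      exact hX.ne_zero
    have h3 : Ideal.span {(X 0 : PA)} < PP := by
      refine lt_of_le_of_ne ?_ ?_
      · rw [Ideal.span_singleton_le_iff_mem, mem_PP]
        simp
      · intro h
        have h4 : (X 1 : PA) ∈ Ideal.span {(X 0 : PA)} := by
          rw [h, mem_PP]
          simp
        rw [Ideal.mem_span_singleton, X_dvd_X] at h4
        exact absurd h4 (by decide)
    have h5 := Ideal.height_add_one_le_of_lt_of_isPrime h2
    have h6 := Ideal.height_add_one_le_of_lt_of_isPrime h3
    have h7 : (2 : ℕ∞) ≤ PP.height := by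
      calc (2 : ℕ∞) = 0 + 1 + 1 := by norm_num
        _ ≤ (⊥ : Ideal PA).height + 1 + 1 := by gcongr; exact zero_le
        _ ≤ (Ideal.span {(X 0 : PA)}).height + 1 := by gcongr
        _ ≤ PP.height := h6
    exact WithBot.coe_le_coe.mpr h7

theorem isRegularLocalRing_RR : IsRegularLocalRing RR := inferInstance

theorem isIntegrallyClosed_RR : IsIntegrallyClosed RR :=
  isIntegrallyClosed_of_isLocalization RR PP.primeCompl PP.primeCompl_le_nonZeroDivisors

theorem isNagata_RR : IsNagata RR := isNagata_of_isLocalization PA RR PP.primeCompl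

theorem isDomain_adicCompletion_RR :
    IsDomain (AdicCompletion (IsLocalRing.maximalIdeal RR) RR) := by
  have hD : IsDomain (AdicCompletion PP PA) := by
    have : IsDomain (MvPowerSeries (Fin 2) ℚ) := NoZeroDivisors.to_isDomain _
    exact (MvPowerSeries.toAdicCompletionAlgEquiv (Fin 2) ℚ).symm.toMulEquiv.isDomain _
  let F : (n : ℕ) → AdicCompletion (IsLocalRing.maximalIdeal RR) RR →+* PA ⧸ PP ^ n := fun n =>
    (IsLocalization.AtPrime.equivQuotMaximalIdealPow PP RR n).symm.toRingEquiv.toRingHom.comp
      (AdicCompletion.evalₐ (IsLocalRing.maximalIdeal RR) n).toRingHom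
  have hF : ∀ n x, F n x = (IsLocalization.AtPrime.equivQuotMaximalIdealPow PP RR n).symm
      (AdicCompletion.evalₐ (IsLocalRing.maximalIdeal RR) n x) := fun _ _ => rfl
  have hc : ∀ {m n : ℕ} (hmn : m ≤ n), (Ideal.Quotient.factorPow PP hmn).comp (F n) = F m := by
    intro m n hmn
    ext x
    rw [RingHom.comp_apply, hF, hF]
    induction x using AdicCompletion.induction_on with
    | _ x =>
      simp only [AdicCompletion.evalₐ_mk]
      rw [← AdicCompletion.Ideal.mk_eq_mk _ hmn x]
      obtain ⟨a, ha⟩ := Ideal.Quotient.mk_surjective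
        ((IsLocalization.AtPrime.equivQuotMaximalIdealPow PP RR n).symm
          (Ideal.Quotient.mk _ (x.val n)))
      rw [← ha, AlgEquiv.eq_symm_apply]
      rw [AlgEquiv.eq_symm_apply] at ha
      simp only [IsLocalization.AtPrime.equivQuotMaximalIdealPow_apply_mk,
        Ideal.Quotient.factorPow, Ideal.Quotient.factor_mk] at ha ⊢
      rw [Ideal.Quotient.eq] at ha ⊢
      exact Ideal.pow_le_pow_right hmn ha
  let H : AdicCompletion (IsLocalRing.maximalIdeal RR) RR →+* AdicCompletion PP PA :=
    AdicCompletion.liftRingHom PP F hc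
  have hH : Function.Injective H := by
    intro x y hxy
    apply AdicCompletion.ext_evalₐ
    intro n
    have := congrArg (AdicCompletion.evalₐ PP n) hxy
    rw [AdicCompletion.evalₐ_liftRingHom PP F hc, AdicCompletion.evalₐ_liftRingHom PP F hc,
      hF, hF] at this
    exact (IsLocalization.AtPrime.equivQuotMaximalIdealPow PP RR n).symm.injective this
  exact hH.isDomain H

theorem isDomain_completion_RR : IsDomain (Completion RR) := by
  have key : ∀ I : Ideal RR, I = IsLocalRing.maximalIdeal RR → IsDomain (AdicCompletion I RR) := by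
    intro I hI
    subst hI
    exact isDomain_adicCompletion_RR
  exact key _ (IsLocalRing.ringJacobson_eq_maximalIdeal RR)

end Pool.Agent.P.MP_4fa782_ag
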