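import Mathlib

/-!
Definitions for Zariski saturation and completion of semi-local rings.
-/

namespace Pool.Agent.P.MP_4fa782_ag

/-- A domain `A` is Japanese (N-2): its integral closure in every finite field extension `L` of
its fraction field is a finite `A`-module. -/
def IsJapanese (A : Type) [CommRing A] [IsDomain A] : Prop :=
  ∀ (L : Type) [Field L] [Algebra A L] [Algebra (FractionRing A) L]
    [IsScalarTower A (FractionRing A) L] [FiniteDimensional (FractionRing A) L],
    Module.Finite A (integralClosure A L)

/-- `R` is pseudo-geometric (a Nagata ring): noetherian, and `R ⧸ p` is Japanese for every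
prime `p`. -/
def IsNagata (R : Type) [CommRing R] : Prop :=
  IsNoetherianRing R ∧ ∀ (p : Ideal R) [p.IsPrime], IsJapanese (R ⧸ p)

/-- Conditions (A), (B), (C) on the pair `{o, R}`, together with the condition `K ⊆ F`
(nonzero elements of `R` are not zero divisors of `o`). -/
structure IsPair (R o : Type) [CommRing R] [CommRing o] [Algebra R o] : Prop where
  noetherian : IsNoetherianRing o
  semilocal : Finite (MaximalSpectrum o)
  reduced : IsReduced o
  regular : IsRegularLocalRing R
  domain : IsDomain R
  subring : Function.Injective (algebraMap R o)
  containsField : Nonempty (ℚ →+* R)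
  finite : Module.Finite R o
  torsionFree : Module.IsTorsionFree R o
  nagata : IsNagata R

section Domination

variable (R F Ω : Type) [CommRing R] [CommRing F] [Field Ω] [Algebra R F] [Algebra R Ω]

/-- The compositum `F*` of the images `ψ(F)` of the homomorphisms `ψ : F → Ω` over `R`
(equivalently over the fraction field `K` of `R`, when `K ⊆ F` and `K ⊆ Ω`). -/
def compositum : Subfield Ω :=
  Subfield.closure (⋃ ψ : F →ₐ[R] Ω, Set.range ψ)

/-- The integral closure `o*` of `R` in `F*`. -/
def oStar : Set Ω :=
  {x | x ∈ compositum R F Ω ∧ IsIntegral R x}

/-- `η` dominates `ζ`. -/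
def Dominates (η ζ : F) : Prop :=
  ∀ ψ φ : F →ₐ[R] Ω,
    (ψ ζ = φ ζ → ψ η = φ η) ∧ (ψ ζ ≠ φ ζ → (ψ η - φ η) / (ψ ζ - φ ζ) ∈ oStar R F Ω)

end Domination

section Saturation

variable (R o : Type) [CommRing R] [IsDomain R] [CommRing o] [Algebra R o]

/-- A subring `S` of the total ring of quotients `F` of `o` (to be taken between `o` and its
integral closure in `F`) is saturated with respect to the fraction field `K` of `R`; here `Ω` is
the algebraic closure of `K`. -/
def IsSaturated (S : Subring (FractionRing o)) : Prop :=
  ∀ ζ ∈ S, ∀ η : FractionRing o, IsIntegral o η →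
    Dominates R (FractionRing o) (AlgebraicClosure (FractionRing R)) η ζ → η ∈ S

/-- The saturation of `o` with respect to `K`: the smallest saturated ring between `o` and the
integral closure of `o` in `F`. -/
noncomputable def saturation : Subring (FractionRing o) :=
  sInf {S | (algebraMap o (FractionRing o)).range ≤ S ∧ (∀ x ∈ S, IsIntegral o x) ∧
    IsSaturated R o S}

/-- The inclusion of `o` in its saturation. -/
noncomputable def toSaturation : o →+* saturation R o :=
  (algebraMap o (FractionRing o)).codRestrict (saturation R o)
    (fun x => Subring.mem_sInf.mpr fun _ hS => hS.1 ⟨x, rfl⟩)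

/-- The `o`-algebra `g : o → B` embeds over `o` in the total ring of quotients of `o`, with image
strictly smaller than the saturation of `o`. -/
def EmbedsBelowSaturation {B : Type} [CommRing B] (g : o →+* B) : Prop :=
  ∃ ι : B →+* FractionRing o, ι.comp g = algebraMap o (FractionRing o) ∧
    Function.Injective ι ∧ ι.range < saturation R o

end Saturation

/-- The completion of a ring at its Jacobson radical `J`. -/
abbrev Completion (A : Type) [CommRing A] : Type := AdicCompletion (Ring.jacobson A) A

/-- The element `x` of the completion and `a : A` have the same image in `A ⧸ J ^ n`. -/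
def Congr {A : Type} [CommRing A] (n : ℕ) (x : Completion A) (a : A) : Prop :=
  AdicCompletion.evalₐ (Ring.jacobson A) n x = Ideal.Quotient.mk (Ring.jacobson A ^ n) a

/-- `G` is the map induced on completions by `g`. -/
def IsInduced {A B : Type} [CommRing A] [CommRing B] (g : A →+* B)
    (G : Completion A →+* Completion B) : Prop :=
  ∀ (n : ℕ) (x : Completion A) (a : A), Congr n x a → Congr n (G x) (g a)

/-- For `j : o → S`, the completion of `S`, as an algebra over the completion of `o` through the
induced map, embeds strictly below the saturation of the completion of `o` over `R'`. -/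
def CompletionBelowSaturation (R' : Type) [CommRing R'] [IsDomain R'] {o S : Type} [CommRing o]
    [CommRing S] [Algebra R' (Completion o)] (j : o →+* S) : Prop :=
  ∃ g : Completion o →+* Completion S,
    IsInduced j g ∧ EmbedsBelowSaturation R' (Completion o) g

end Pool.Agent.P.MP_4fa782_ag
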