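import Pool.Agent.P.MP_4fa782_ag.Hat
import Pool.Agent.P.MP_4fa782_ag.Base

namespace Pool.Agent.P.MP_4fa782_ag

open IsLocalRing

theorem exists_embedding (R o : Type) [CommRing R] [IsDomain R] [CommRing o] [Algebra R o]
    (h : saturation R o = (algebraMap o (FractionRing o)).range) :
    ∃ (g : Completion o →+* Completion (saturation R o))
      (ι : Completion (saturation R o) →+* FractionRing (Completion o)),
      IsInduced (toSaturation R o) g ∧
      ι.comp g = algebraMap (Completion o) (FractionRing (Completion o)) ∧
      Function.Injective ι ∧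
      ι.range = (algebraMap (Completion o) (FractionRing (Completion o))).range := by
  have hb : Function.Bijective (toSaturation R o) := by
    constructor
    · intro x y hxy
      exact IsFractionRing.injective o (FractionRing o) (congrArg Subtype.val hxy)
    · rintro ⟨x, hx⟩
      rw [h] at hx
      obtain ⟨y, rfl⟩ := hx
      exact ⟨y, rfl⟩
  let e : o ≃+* saturation R o := RingEquiv.ofBijective _ hb
  obtain ⟨g, hg⟩ := exists_isInduced (toSaturation R o)
    (jacobson_le_comap_of_surjective _ hb.2)
  obtain ⟨g', hg'⟩ := exists_isInduced (e.symm : saturation R o →+* o)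
    (jacobson_le_comap_of_surjective _ e.symm.surjective)
  have h1 : ∀ x, g' (g x) = x := (hg.comp hg').eq_self (fun a => e.symm_apply_apply a)
  have h2 : ∀ x, g (g' x) = x := (hg'.comp hg).eq_self (fun a => e.apply_symm_apply a)
  refine ⟨g, (algebraMap _ _).comp g', hg, ?_, ?_, ?_⟩
  · ext x
    simp [h1]
  · exact (IsFractionRing.injective _ _).comp (Function.LeftInverse.injective h2)
  · apply le_antisymm
    · rintro _ ⟨x, rfl⟩
      exact ⟨g' x, rfl⟩
    · rintro _ ⟨x, rfl⟩
      exact ⟨g x, by simp [h1]⟩

theorem main_abstract (R : Type) [CommRing R] [IsDomain R] [IsLocalRing R] [IsNoetherianRing R]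
    [IsIntegrallyClosed R] (D : Data R) (hreg : IsRegularLocalRing R) (hQ : Nonempty (ℚ →+* R))
    (hN : IsNagata R) (hdim : ringKrullDim R = 2) (hD : IsDomain (Completion R))
    (h2 : IsUnit (2 : R)) :
    ∃ (R o : Type) (_ : CommRing R) (_ : IsDomain R) (_ : CommRing o) (_ : Algebra R o),
      IsPair R o ∧ ringKrullDim R = 2 ∧
      saturation R o = (algebraMap o (FractionRing o)).range ∧
      ∃ (_ : IsDomain (Completion R)) (_ : Algebra (Completion R) (Completion o)),
        IsInduced (algebraMap R o) (algebraMap (Completion R) (Completion o)) ∧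
        Module.IsTorsionFree (Completion R) (Completion o) ∧
        CompletionBelowSaturation (Completion R) (toSaturation R o) := by
  have hpair : IsPair R D.oo :=
    { noetherian := D.isNoetherianRing_oo
      semilocal := inferInstance
      reduced := isReduced_of_injective D.oo.val Subtype.val_injective
      regular := hreg
      domain := inferInstance
      subring := Function.LeftInverse.injective (g := D.pr 0) (fun r => (D.pr 0).commutes r)
      containsField := hQ
      finite := D.finite_oo
      torsionFree := inferInstance
      nagata := hN }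
  have hsat := saturation_eq_range R D.oo D.isSaturated
  obtain ⟨G, hG⟩ := exists_isInduced (algebraMap R D.oo) D.jacobson_le
  let alg : Algebra (Completion R) (Completion D.oo) := G.toAlgebra
  obtain ⟨g, ι, h1, h3, h4, h5⟩ := exists_embedding R D.oo hsat
  refine ⟨R, D.oo, inferInstance, inferInstance, inferInstance, inferInstance, hpair,
    hdim, hsat, hD, alg, hG, D.isTorsionFree_hat hG, g, h1, ι, h3, h4, ?_⟩
  rw [h5]
  exact D.range_lt_saturation_hat h2 hG

/-- The data for the plane at the origin. -/
noncomputable def DD : Data RR where
  s := algebraMap PA RR (MvPolynomial.X 1)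
  t := algebraMap PA RR (MvPolynomial.X 0)
  f := algebraMap PA RR fA
  hf := by simp [fA]
  hs := X_mem_max 1
  ht := X_mem_max 0
  irr := prime_fR.irreducible

theorem isUnit_two_RR : IsUnit (2 : RR) := by
  have := (IsUnit.mk0 (2 : ℚ) two_ne_zero).map (algebraMap ℚ RR)
  rwa [map_ofNat] at this

end Pool.Agent.P.MP_4fa782_ag
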