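import Pool.Agent.P.MP_4fa782_ag.Sat

namespace Pool.Agent.P.MP_4fa782_ag

open IsLocalRing
open scoped nonZeroDivisors

namespace Data

variable {R : Type} [CommRing R] [IsLocalRing R] [IsDomain R] [IsNoetherianRing R] (D : Data R)
variable [Algebra (Completion R) (Completion D.oo)]

omit [IsDomain R] [IsNoetherianRing R] [Algebra (Completion R) (Completion D.oo)] in
theorem exists_prHat (i : Fin 3) :
    ∃ G : Completion D.oo →+* Completion R, IsInduced (D.pr i : D.oo →+* R) G :=
  exists_isInduced _ (jacobson_le_comap_of_surjective _ (D.pr_surjective i))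

omit [IsDomain R] [IsNoetherianRing R] in
theorem hat_algebraMap
    (hG : IsInduced (algebraMap R D.oo) (algebraMap (Completion R) (Completion D.oo))) (r : R) :
    algebraMap (Completion R) (Completion D.oo) (algebraMap R (Completion R) r) =
      algebraMap D.oo (Completion D.oo) (algebraMap R D.oo r) := hG.algebraMap r

omit [Algebra (Completion R) (Completion D.oo)] in
theorem hat_mem {r : R} (hr : r ≠ 0) :
    algebraMap D.oo (Completion D.oo) (algebraMap R D.oo r) ∈ (Completion D.oo)⁰ :=
  have := D.isNoetherianRing_oo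
  algebraMap_mem_nonZeroDivisors (D.algebraMap_mem hr)

theorem isTorsionFree_hat [IsDomain (Completion R)]
    (hG : IsInduced (algebraMap R D.oo) (algebraMap (Completion R) (Completion D.oo))) :
    Module.IsTorsionFree (Completion R) (Completion D.oo) := by
  choose P hP using D.exists_prHat
  have h1 : ∀ i r, P i (algebraMap (Completion R) (Completion D.oo) r) = r := by
    intro i r
    exact (hG.comp (hP i)).eq_self (fun a => (D.pr i).commutes a) r
  have h2 : ∀ x : Completion D.oo,
      algebraMap D.oo (Completion D.oo) (algebraMap R D.oo (D.f * D.s)) * x =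
        algebraMap (Completion R) _ (P 0 x) * algebraMap D.oo _ (D.aa 0) +
        algebraMap (Completion R) _ (P 1 x) * algebraMap D.oo _ (D.aa 1) +
        algebraMap (Completion R) _ (P 2 x) * algebraMap D.oo _ (D.aa 2) := by
    intro x
    apply AdicCompletion.ext_evalₐ
    intro n
    obtain ⟨z, hz⟩ := Ideal.Quotient.mk_surjective
      (AdicCompletion.evalₐ (Ring.jacobson D.oo) n x)
    have h3 : ∀ i, AdicCompletion.evalₐ (Ring.jacobson D.oo) n
        (algebraMap (Completion R) (Completion D.oo) (P i x)) =
        Ideal.Quotient.mk _ (algebraMap R D.oo (D.pr i z)) :=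
      fun i => hG n _ _ (hP i n x z hz.symm)
    have h4 := congrArg (Ideal.Quotient.mk (Ring.jacobson D.oo ^ n)) (D.d_mul z)
    simp only [RingHom.map_add, RingHom.map_mul] at h4
    set E : Completion D.oo →+* D.oo ⧸ Ring.jacobson D.oo ^ n :=
      (AdicCompletion.evalₐ (Ring.jacobson D.oo) n).toRingHom with hE
    have h5 : ∀ y : D.oo, E (algebraMap D.oo (Completion D.oo) y) = Ideal.Quotient.mk _ y :=
      fun y => (AdicCompletion.evalₐ (Ring.jacobson D.oo) n).commutes y
    change E _ = E _
    change ∀ i, E _ = _ at h3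
    change _ = E _ at hz
    simp only [RingHom.map_add, RingHom.map_mul, h3, h5, ← hz]
    exact h4
  have h3 : ∀ x : Completion D.oo, (∀ i, P i x = 0) → x = 0 := by
    intro x hx
    apply mem_nonZeroDivisors_iff_left.mp (D.hat_mem D.d_ne_zero)
    rw [h2, hx, hx, hx]
    simp
  rw [Module.isTorsionFree_iff_smul_eq_zero]
  intro r x hrx
  by_cases hr : r = 0
  · exact Or.inl hr
  · right
    apply h3
    intro i
    have := congrArg (P i) hrx
    rw [Algebra.smul_def, map_mul, h1, map_zero] at this
    exact (mul_eq_zero.mp this).resolve_left hr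

/-- In a field, three orthogonal elements with nonzero sum `d`. -/
theorem trichotomy {K : Type} [Field K] {a b c d : K} (hab : a * b = 0) (hac : a * c = 0)
    (hbc : b * c = 0) (hs : a + b + c = d) :
    (a = d ∧ b = 0 ∧ c = 0) ∨ (a = 0 ∧ b = d ∧ c = 0) ∨ (a = 0 ∧ b = 0 ∧ c = d) := by
  by_cases ha : a = 0
  · by_cases hb : b = 0
    · right; right
      refine ⟨ha, hb, ?_⟩
      rw [← hs, ha, hb]; ring
    · right; left
      have hc : c = 0 := (mul_eq_zero.mp hbc).resolve_left hb
      refine ⟨ha, ?_, hc⟩
      rw [← hs, ha, hc]; ring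
  · left
    have hb : b = 0 := (mul_eq_zero.mp hab).resolve_left ha
    have hc : c = 0 := (mul_eq_zero.mp hac).resolve_left ha
    refine ⟨?_, hb, hc⟩
    rw [← hs, hb, hc]; ring

theorem range_lt_saturation_hat [IsDomain (Completion R)] (h2 : IsUnit (2 : R))
    (hG : IsInduced (algebraMap R D.oo) (algebraMap (Completion R) (Completion D.oo))) :
    (algebraMap (Completion D.oo) (FractionRing (Completion D.oo))).range <
      saturation (Completion R) (Completion D.oo) := by
  have hN := D.isNoetherianRing_oo
  obtain ⟨w, hw⟩ := exists_sqrt h2 D.hs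
  set c : D.oo →+* Completion D.oo := algebraMap D.oo (Completion D.oo) with hc
  set q : Completion D.oo →+* FractionRing (Completion D.oo) :=
    algebraMap (Completion D.oo) (FractionRing (Completion D.oo)) with hq
  have hs := D.hat_mem D.s_ne_zero
  let η : FractionRing (Completion D.oo) :=
    IsLocalization.mk' _ (c (D.aa 2)) (⟨_, hs⟩ : (Completion D.oo)⁰)
  have hη : η * q (c (algebraMap R D.oo D.s)) = q (c (D.aa 2)) :=
    IsLocalization.mk'_spec _ (c (D.aa 2)) (⟨_, hs⟩ : (Completion D.oo)⁰)
  have hsu : IsUnit (q (c (algebraMap R D.oo D.s))) :=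
    IsLocalization.map_units _ (⟨_, hs⟩ : (Completion D.oo)⁰)
  let ζ : Completion D.oo := c D.z0 + algebraMap (Completion R) _ w * c D.z1
  refine lt_of_le_of_ne (range_le_saturation _ _) (fun heq => ?_)
  have hint : IsIntegral (Completion D.oo) η := by
    refine ⟨Polynomial.X ^ 2 - Polynomial.C (c (algebraMap R D.oo D.f)) * Polynomial.X, ?_, ?_⟩
    · monicity!
    · have e1 : D.aa 2 * D.aa 2 =
          algebraMap R D.oo D.f * algebraMap R D.oo D.s * D.aa 2 := by
        rw [← map_mul, ← D.sum_aa, add_mul, add_mul,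
          D.aa_mul_aa (show (0 : Fin 3) ≠ 2 by decide),
          D.aa_mul_aa (show (1 : Fin 3) ≠ 2 by decide)]
        ring
      have e2 := congrArg (fun x => q (c x)) e1
      simp only [map_mul, ← hη] at e2
      simp only [Polynomial.eval₂_sub, Polynomial.eval₂_pow, Polynomial.eval₂_X,
        Polynomial.eval₂_mul, Polynomial.eval₂_C]
      apply (hsu.mul hsu).mul_right_cancel
      rw [← hq]
      linear_combination e2
  have hdom : Dominates (Completion R) (FractionRing (Completion D.oo))
      (AlgebraicClosure (FractionRing (Completion R))) η (q ζ) := by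
    apply dominates_of_forall
    set k : Completion R →+* AlgebraicClosure (FractionRing (Completion R)) :=
      algebraMap (Completion R) _ with hk
    set b : R →+* Completion R := algebraMap R (Completion R) with hb
    have hkb : Function.Injective (fun r => k (b r)) :=
      (algebraMap_algebraicClosure_injective _).comp algebraMap_completion_injective
    have hs0 : k (b D.s) ≠ 0 := fun h => D.s_ne_zero (hkb (by simpa using h))
    have hf0 : k (b D.f) ≠ 0 := fun h => D.irr.ne_zero (hkb (by simpa using h))
    have hfac : k (b D.f) = (k (b D.t) + k w * k (b D.s)) * (k (b D.t) - k w * k (b D.s)) := by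
      have e1 := congrArg k hw
      have e2 := congrArg (fun r => k (b r)) D.hf
      simp only [map_pow, map_add, map_one, map_sub, map_mul] at e1 e2
      linear_combination e2 + (k (b D.s)) ^ 2 * e1
    have main : ∀ ψ : Conj (Completion R) (Completion D.oo),
        (ψ (q ζ) = k (b D.f) ∧ ψ η = 0) ∨
        (ψ (q ζ) = k (b D.t) + k w * k (b D.s) ∧ ψ η = 0) ∨
        (ψ (q ζ) = 0 ∧ ψ η = k (b D.f)) := by
      intro ψ
      have hψ : ∀ r : Completion R, ψ (q (algebraMap (Completion R) _ r)) = k r := fun r => by
        rw [hq, ← IsScalarTower.algebraMap_apply, AlgHom.commutes]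
      let θ : D.oo →+* AlgebraicClosure (FractionRing (Completion R)) :=
        (ψ : _ →+* _).comp (q.comp c)
      have hθ : ∀ x, θ x = ψ (q (c x)) := fun _ => rfl
      have hθR : ∀ r : R, θ (algebraMap R D.oo r) = k (b r) := fun r => by
        rw [hθ, hc, ← D.hat_algebraMap hG, hψ]
      have t01 := congrArg θ (D.aa_mul_aa (show (0 : Fin 3) ≠ 1 by decide))
      have t02 := congrArg θ (D.aa_mul_aa (show (0 : Fin 3) ≠ 2 by decide))
      have t12 := congrArg θ (D.aa_mul_aa (show (1 : Fin 3) ≠ 2 by decide))
      have tsum := congrArg θ D.sum_aa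
      have tz0 := congrArg θ (D.d_mul D.z0)
      have tz1 := congrArg θ (D.d_mul D.z1)
      have tη := congrArg ψ hη
      rw [map_mul, ← hθ, ← hθ, hθR] at tη
      have tζ : ψ (q ζ) = θ D.z0 + k w * θ D.z1 := by
        simp only [ζ, map_add, map_mul, hψ, hθ]
      simp only [map_mul θ, map_add θ, map_zero θ, hθR] at t01 t02 t12 tsum tz0 tz1
      simp only [pr_apply, z0, z1, Matrix.cons_val_zero, Matrix.cons_val_one, Matrix.cons_val,
        map_zero, map_mul] at tz0 tz1 tsum
      have hd0 : k (b D.f) * k (b D.s) ≠ 0 := mul_ne_zero hf0 hs0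
      change _ * θ D.z0 = _ at tz0
      change _ * θ D.z1 = _ at tz1
      rcases trichotomy t01 t02 t12 tsum with ⟨a0, a1, a2⟩ | ⟨a0, a1, a2⟩ | ⟨a0, a1, a2⟩
      · left
        rw [a0, a1, a2] at tz0 tz1
        rw [a2] at tη
        have u0 : θ D.z0 = k (b D.f) := mul_left_cancel₀ hd0 (by linear_combination tz0)
        have u1 : θ D.z1 = 0 := mul_left_cancel₀ hd0 (by linear_combination tz1)
        refine ⟨by rw [tζ, u0, u1]; ring, (mul_eq_zero.mp tη).resolve_right hs0⟩
      · right; left
        rw [a0, a1, a2] at tz0 tz1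
        rw [a2] at tη
        have u0 : θ D.z0 = k (b D.t) := mul_left_cancel₀ hd0 (by linear_combination tz0)
        have u1 : θ D.z1 = k (b D.s) := mul_left_cancel₀ hd0 (by linear_combination tz1)
        refine ⟨by rw [tζ, u0, u1], (mul_eq_zero.mp tη).resolve_right hs0⟩
      · right; right
        rw [a0, a1, a2] at tz0 tz1
        rw [a2] at tη
        have u0 : θ D.z0 = 0 := mul_left_cancel₀ hd0 (by linear_combination tz0)
        have u1 : θ D.z1 = 0 := mul_left_cancel₀ hd0 (by linear_combination tz1)
        refine ⟨by rw [tζ, u0, u1]; ring, mul_right_cancel₀ hs0 tη⟩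
    intro ψ φ
    rcases main ψ with ⟨a1, a2⟩ | ⟨a1, a2⟩ | ⟨a1, a2⟩ <;>
      rcases main φ with ⟨b1, b2⟩ | ⟨b1, b2⟩ | ⟨b1, b2⟩ <;> rw [a1, a2, b1, b2]
    · exact ⟨0, by simp⟩
    · exact ⟨0, by simp⟩
    · exact ⟨-1, by simp⟩
    · exact ⟨0, by simp⟩
    · exact ⟨0, by simp⟩
    · exact ⟨-(b D.t - w * b D.s), by
        rw [map_neg, map_sub, map_mul]; linear_combination -hfac⟩
    · exact ⟨-1, by simp⟩
    · exact ⟨-(b D.t - w * b D.s), by
        rw [map_neg, map_sub, map_mul]; linear_combination hfac⟩
    · exact ⟨0, by simp⟩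
  have hmem := mem_saturation (Completion R) (Completion D.oo) hint hdom
  rw [← heq] at hmem
  obtain ⟨x, hx⟩ := hmem
  apply D.not_s_dvd
  apply dvd_of_dvd_completion
  refine ⟨x, ?_⟩
  apply IsFractionRing.injective (Completion D.oo) (FractionRing (Completion D.oo))
  rw [map_mul, ← hq, ← hc, ← hη, hx, mul_comm]

end Data

end Pool.Agent.P.MP_4fa782_ag
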