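import Pool.Agent.P.MP_4fa782_ag.Defs

namespace Pool.Agent.P.MP_4fa782_ag

open scoped nonZeroDivisors

/-- Finiteness of the integral closure for a localization `S` of a finitely generated domain `B`
over the rationals. -/
theorem finite_integralClosure_of_isLocalization (B S : Type) [CommRing B] [IsDomain B]
    [Algebra ℚ B] [Algebra.FiniteType ℚ B] [CommRing S] [IsDomain S] [Algebra B S]
    (M : Submonoid B) (hM : M ≤ B⁰) [IsLocalization M S]
    (L : Type) [Field L] [Algebra S L] [Algebra (FractionRing S) L]
    [IsScalarTower S (FractionRing S) L] [FiniteDimensional (FractionRing S) L] :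
    Module.Finite S (integralClosure S L) := by
  classical
  obtain ⟨s, g, hginj, hgfin⟩ := exists_finite_inj_algHom_of_fg ℚ B
  set C := MvPolynomial (Fin s) ℚ with hC
  let : Algebra C B := g.toRingHom.toAlgebra
  have : Module.Finite C B := hgfin
  have : FaithfulSMul C B := (faithfulSMul_iff_algebraMap_injective C B).mpr hginj
  have hBS : Function.Injective (algebraMap B S) := IsLocalization.injective S hM
  let : Algebra C S := ((algebraMap B S).comp (algebraMap C B)).toAlgebra
  have : IsScalarTower C B S := IsScalarTower.of_algebraMap_eq fun _ => rfl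
  have hBF : Function.Injective (algebraMap B (FractionRing S)) := by
    rw [IsScalarTower.algebraMap_eq B S (FractionRing S)]
    exact (IsFractionRing.injective S (FractionRing S)).comp hBS
  have : FaithfulSMul B (FractionRing S) := (faithfulSMul_iff_algebraMap_injective _ _).mpr hBF
  have : IsFractionRing B (FractionRing S) := by
    apply IsFractionRing.of_field
    intro z
    obtain ⟨x, y, hy, rfl⟩ := IsFractionRing.div_surjective (A := S) z
    obtain ⟨⟨a, m⟩, ha⟩ := IsLocalization.surj M x
    obtain ⟨⟨b, n⟩, hb⟩ := IsLocalization.surj M y
    have ha' := congrArg (algebraMap S (FractionRing S)) ha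
    have hb' := congrArg (algebraMap S (FractionRing S)) hb
    simp only [map_mul, ← IsScalarTower.algebraMap_apply] at ha' hb'
    have hm : algebraMap B (FractionRing S) m ≠ 0 :=
      (map_ne_zero_iff _ hBF).mpr (nonZeroDivisors.ne_zero (hM m.2))
    have hn : algebraMap B (FractionRing S) n ≠ 0 :=
      (map_ne_zero_iff _ hBF).mpr (nonZeroDivisors.ne_zero (hM n.2))
    have hy' : algebraMap S (FractionRing S) y ≠ 0 :=
      (map_ne_zero_iff _ (IsFractionRing.injective S (FractionRing S))).mpr
        (nonZeroDivisors.ne_zero hy)
    refine ⟨a * n, b * m, ?_⟩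
    rw [map_mul, map_mul, ← ha', ← hb']
    field_simp
  have : FaithfulSMul C (FractionRing S) := by
    rw [faithfulSMul_iff_algebraMap_injective, IsScalarTower.algebraMap_eq C B (FractionRing S)]
    exact (IsFractionRing.injective B (FractionRing S)).comp hginj
  let : Algebra (FractionRing C) (FractionRing S) := FractionRing.liftAlgebra C (FractionRing S)
  have : IsScalarTower C (FractionRing C) (FractionRing S) :=
    FractionRing.isScalarTower_liftAlgebra C (FractionRing S)
  have : Algebra.IsAlgebraic C B := Algebra.IsAlgebraic.of_finite C B
  have : IsLocalization (Algebra.algebraMapSubmonoid B C⁰) (FractionRing S) :=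
    Algebra.IsAlgebraic.instIsLocalizationAlgebraMapSubmonoidNonZeroDivisors C B (FractionRing S)
  have : FiniteDimensional (FractionRing C) (FractionRing S) :=
    Module.Finite.of_isLocalization C B C⁰
  let : Algebra (FractionRing C) L :=
    ((algebraMap (FractionRing S) L).comp (algebraMap (FractionRing C) (FractionRing S))).toAlgebra
  have : IsScalarTower (FractionRing C) (FractionRing S) L :=
    IsScalarTower.of_algebraMap_eq fun _ => rfl
  have : FiniteDimensional (FractionRing C) L := Module.Finite.trans (FractionRing S) L
  let : Algebra B L := ((algebraMap S L).comp (algebraMap B S)).toAlgebra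
  have : IsScalarTower B S L := IsScalarTower.of_algebraMap_eq fun _ => rfl
  let : Algebra C L := ((algebraMap B L).comp (algebraMap C B)).toAlgebra
  have : IsScalarTower C B L := IsScalarTower.of_algebraMap_eq fun _ => rfl
  have : IsScalarTower C S L := IsScalarTower.of_algebraMap_eq fun _ => rfl
  have : IsScalarTower C (FractionRing C) L := IsScalarTower.of_algebraMap_eq fun x => by
    change algebraMap S L (algebraMap C S x) =
      algebraMap (FractionRing S) L (algebraMap (FractionRing C) (FractionRing S) _)
    rw [← IsScalarTower.algebraMap_apply C (FractionRing C) (FractionRing S),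
      IsScalarTower.algebraMap_apply C S (FractionRing S),
      ← IsScalarTower.algebraMap_apply S (FractionRing S) L]
  have : CharZero (FractionRing C) := inferInstance
  have : Algebra.IsSeparable (FractionRing C) L := inferInstance
  have hE : Module.Finite C (integralClosure C L) :=
    IsIntegralClosure.finite C (FractionRing C) L (integralClosure C L)
  obtain ⟨T, hT⟩ := hE.fg_top
  have key : Subalgebra.toSubmodule (integralClosure S L) =
      Submodule.span S ((T.image (fun x : integralClosure C L => (x : L)) : Finset L) : Set L) := by
    apply le_antisymm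
    · intro x hx
      have hx' : IsIntegral S x := hx
      obtain ⟨m, hm⟩ := IsIntegral.exists_multiple_integral_of_isLocalization M x hx'
      have : Algebra.IsIntegral C B := Algebra.IsIntegral.of_finite C B
      have hm' : IsIntegral C (m • x) := isIntegral_trans _ hm
      have h1 : (⟨m • x, hm'⟩ : integralClosure C L) ∈ Submodule.span C (T : Set _) := by
        rw [hT]; trivial
      have h2 : m • x ∈ Submodule.span C
          ((T.image (fun x : integralClosure C L => (x : L)) : Finset L) : Set L) := by
        have := Submodule.mem_map_of_mem
          (f := (integralClosure C L).val.toLinearMap) h1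
        rw [Submodule.map_span] at this
        simpa using this
      have h3 : m • x ∈ Submodule.span S
          ((T.image (fun x : integralClosure C L => (x : L)) : Finset L) : Set L) :=
        Submodule.span_le_restrictScalars C S _ h2
      obtain ⟨u, hu⟩ := IsLocalization.map_units S m
      have h4 : x = (↑u⁻¹ : S) • (m • x) := by
        rw [Submonoid.smul_def, ← algebraMap_smul S (m : B) x, ← hu, smul_smul]
        simp
      rw [h4]
      exact Submodule.smul_mem _ _ h3
    · rw [Submodule.span_le]
      intro x hx
      simp only [Finset.coe_image, Set.mem_image] at hx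
      obtain ⟨y, -, rfl⟩ := hx
      have : IsIntegral C (y : L) := y.2
      exact this.tower_top
  have hfg : (Subalgebra.toSubmodule (integralClosure S L)).FG := ⟨_, key.symm⟩
  exact Module.Finite.iff_fg.mpr hfg

/-- A localization of a finitely generated algebra over the rationals is a Nagata ring. -/
theorem isNagata_of_isLocalization (A R : Type) [CommRing A] [Algebra ℚ A]
    [Algebra.FiniteType ℚ A] [CommRing R] [Algebra A R] (M : Submonoid A) [IsLocalization M R] :
    IsNagata R := by
  have : IsNoetherianRing A := Algebra.FiniteType.isNoetherianRing ℚ A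
  refine ⟨IsLocalization.isNoetherianRing M R inferInstance, ?_⟩
  intro p _ L _ _ _ _ _
  let q : Ideal A := p.comap (algebraMap A R)
  have : q.IsPrime := Ideal.comap_isPrime _ _
  let : Algebra (A ⧸ q) (R ⧸ p) := (Ideal.quotientMap p (algebraMap A R) le_rfl).toAlgebra
  have : IsLocalization (M.map (Ideal.Quotient.mk q)) (R ⧸ p) := by
    refine IsLocalization.of_surjective M R (Ideal.Quotient.mk q) Ideal.Quotient.mk_surjective
      (Ideal.Quotient.mk p) Ideal.Quotient.mk_surjective rfl ?_
    rw [Ideal.mk_ker, Ideal.mk_ker]
    exact (IsLocalization.map_under M R p).ge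
  have hM : M.map (Ideal.Quotient.mk q) ≤ (A ⧸ q)⁰ := by
    rintro _ ⟨m, hm, rfl⟩
    apply mem_nonZeroDivisors_of_ne_zero
    intro h
    have h0 : m ∈ q := Ideal.Quotient.eq_zero_iff_mem.mp h
    have h1 : algebraMap A R m ∈ p := h0
    exact (Ideal.IsPrime.ne_top inferInstance)
      (Ideal.eq_top_of_isUnit_mem p h1 (IsLocalization.map_units R ⟨m, hm⟩))
  exact finite_integralClosure_of_isLocalization (A ⧸ q) (R ⧸ p) _ hM L

end Pool.Agent.P.MP_4fa782_ag
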