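import Pool.Agent.P.MP_4fa782_ag.Compl

namespace Pool.Agent.P.MP_4fa782_ag

open IsLocalRing
open scoped nonZeroDivisors

/-- The data used in the construction. -/
structure Data (R : Type) [CommRing R] [IsLocalRing R] where
  s : R
  t : R
  f : R
  hf : f = t ^ 2 - s ^ 2 * (1 + s)
  hs : s ∈ maximalIdeal R
  ht : t ∈ maximalIdeal R
  irr : Irreducible f

namespace Data

variable {R : Type} [CommRing R] [IsLocalRing R] (D : Data R)

theorem f_mem : D.f ∈ maximalIdeal R := D.irr.not_isUnit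

theorem f_ne_mul {a b : R} (ha : a ∈ maximalIdeal R) (hb : b ∈ maximalIdeal R) :
    D.f ≠ a * b := by
  intro h
  rcases D.irr.isUnit_or_isUnit h with h1 | h1
  · exact ha h1
  · exact hb h1

theorem s_ne_zero : D.s ≠ 0 := by
  intro h
  apply D.f_ne_mul D.ht D.ht
  rw [D.hf, h]
  ring

/-- If `t * b` is a multiple of `s`, then `b` is not a unit. -/
theorem mem_of_t_mul {a b : R} (h : D.t * b = D.s * a) : b ∈ maximalIdeal R := by
  intro hb
  obtain ⟨u, rfl⟩ := hb
  have h1 : D.t = D.s * (a * ↑u⁻¹) := by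
    rw [← mul_assoc, ← h, mul_assoc]
    simp
  apply D.f_ne_mul D.hs (Ideal.mul_mem_right ((a * ↑u⁻¹) ^ 2 - (1 + D.s)) _ D.hs)
  rw [D.hf, h1]
  ring

/-- The order inside three copies of `R`. -/
def oo : Subalgebra R (Fin 3 → R) where
  carrier := {z | ∃ x y a : R, x - y ∈ maximalIdeal R ∧ z 0 - z 2 = D.f * x ∧
    z 1 - z 2 = D.t * y + D.s * a}
  mul_mem' := by
    rintro z w ⟨x, y, a, h, h0, h1⟩ ⟨x', y', a', h', h0', h1'⟩
    refine ⟨z 2 * x' + w 2 * x + D.f * x * x', z 2 * y' + w 2 * y + D.t * y * y',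
      z 2 * a' + w 2 * a + a * (D.t * y' + D.s * a') + a' * D.t * y, ?_, ?_, ?_⟩
    · have : z 2 * x' + w 2 * x + D.f * x * x' - (z 2 * y' + w 2 * y + D.t * y * y') =
          z 2 * (x' - y') + w 2 * (x - y) + D.f * (x * x') - D.t * (y * y') := by ring
      rw [this]
      exact Ideal.sub_mem _ (Ideal.add_mem _ (Ideal.add_mem _ (Ideal.mul_mem_left _ _ h')
        (Ideal.mul_mem_left _ _ h)) (Ideal.mul_mem_right _ _ D.f_mem))
        (Ideal.mul_mem_right _ _ D.ht)
    · simp only [Pi.mul_apply]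
      rw [eq_add_of_sub_eq h0, eq_add_of_sub_eq h0']
      ring
    · simp only [Pi.mul_apply]
      rw [eq_add_of_sub_eq h1, eq_add_of_sub_eq h1']
      ring
  add_mem' := by
    rintro z w ⟨x, y, a, h, h0, h1⟩ ⟨x', y', a', h', h0', h1'⟩
    refine ⟨x + x', y + y', a + a', ?_, ?_, ?_⟩
    · have : x + x' - (y + y') = (x - y) + (x' - y') := by ring
      rw [this]
      exact Ideal.add_mem _ h h'
    · simp only [Pi.add_apply]
      linear_combination h0 + h0'
    · simp only [Pi.add_apply]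
      linear_combination h1 + h1'
  algebraMap_mem' := by
    intro r
    exact ⟨0, 0, 0, by simp, by simp, by simp⟩

theorem mem_oo (z : Fin 3 → R) : z ∈ D.oo ↔ ∃ x y a : R, x - y ∈ maximalIdeal R ∧
    z 0 - z 2 = D.f * x ∧ z 1 - z 2 = D.t * y + D.s * a := Iff.rfl

/-- The three projections. -/
def pr (i : Fin 3) : D.oo →ₐ[R] R := (Pi.evalAlgHom R (fun _ => R) i).comp D.oo.val

theorem pr_apply (i : Fin 3) (z : D.oo) : D.pr i z = z.1 i := rfl

theorem pr_surjective (i : Fin 3) : Function.Surjective (D.pr i) :=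
  fun r => ⟨algebraMap R D.oo r, (D.pr i).commutes r⟩

theorem sub_mem (z : D.oo) (i : Fin 3) : z.1 i - z.1 2 ∈ maximalIdeal R := by
  obtain ⟨x, y, a, -, h0, h1⟩ := z.2
  fin_cases i
  · simpa [h0] using Ideal.mul_mem_right _ _ D.f_mem
  · simpa [h1] using Ideal.add_mem _ (Ideal.mul_mem_right _ _ D.ht) (Ideal.mul_mem_right _ _ D.hs)
  · simp

theorem isUnit_of_isUnit (z : D.oo) (h : IsUnit (z.1 2)) : IsUnit z := by
  have h1 : IsUnit z.1 := by
    rw [Pi.isUnit_iff]
    intro i
    by_contra hi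
    have h2 : z.1 i ∈ maximalIdeal R := hi
    have h3 := Ideal.sub_mem _ h2 (D.sub_mem z i)
    rw [sub_sub_cancel] at h3
    exact h3 h
  have : Algebra.IsIntegral D.oo (Fin 3 → R) := by
    have : Algebra.IsIntegral R (Fin 3 → R) := Algebra.IsIntegral.of_finite R _
    exact Algebra.IsIntegral.tower_top R
  have h4 : IsLocalHom (algebraMap D.oo (Fin 3 → R)) := inferInstance
  exact h4.map_nonunit z h1

instance : IsLocalRing D.oo := by
  apply IsLocalRing.of_isUnit_or_isUnit_one_sub_self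
  intro z
  rcases IsLocalRing.isUnit_or_isUnit_one_sub_self (z.1 2) with h | h
  · exact Or.inl (D.isUnit_of_isUnit z h)
  · exact Or.inr (D.isUnit_of_isUnit _ h)

theorem jacobson_le : Ring.jacobson R ≤ (Ring.jacobson D.oo).comap (algebraMap R D.oo) := by
  rw [ringJacobson_eq_maximalIdeal, ringJacobson_eq_maximalIdeal]
  intro r hr h
  have := h.map (D.pr 0)
  rw [AlgHom.commutes] at this
  exact hr this

/-- The elements `f * s * e_i`. -/
def aa (i : Fin 3) : D.oo := ⟨Pi.single i (D.f * D.s), by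
  fin_cases i
  · exact ⟨D.s, 0, 0, by simpa using D.hs, by simp, by simp⟩
  · exact ⟨0, 0, D.f, by simp, by simp, by simp [mul_comm]⟩
  · exact ⟨-D.s, 0, -D.f, by simpa using D.hs, by simp, by simp [mul_comm]⟩⟩

/-- The element `(f, t, 0)`. -/
def z0 : D.oo := ⟨![D.f, D.t, 0], ⟨1, 1, 0, by simp, by simp, by simp⟩⟩

/-- The element `(0, s, 0)`. -/
def z1 : D.oo := ⟨![0, D.s, 0], ⟨0, 0, 1, by simp, by simp, by simp⟩⟩

theorem aa_mul_aa {i j : Fin 3} (h : i ≠ j) : D.aa i * D.aa j = 0 := by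
  ext k
  simp only [aa, MulMemClass.mk_mul_mk, Pi.mul_apply, ZeroMemClass.coe_zero, Pi.zero_apply]
  by_cases hk : k = i
  · subst hk
    simp [h]
  · simp [hk]

theorem sum_aa : D.aa 0 + D.aa 1 + D.aa 2 = algebraMap R D.oo (D.f * D.s) := by
  ext k
  fin_cases k <;> simp [aa]

theorem d_mul (z : D.oo) : algebraMap R D.oo (D.f * D.s) * z =
    algebraMap R D.oo (D.pr 0 z) * D.aa 0 + algebraMap R D.oo (D.pr 1 z) * D.aa 1 +
      algebraMap R D.oo (D.pr 2 z) * D.aa 2 := by
  ext k
  fin_cases k <;> simp [aa, pr_apply, mul_comm]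

theorem finite_oo [IsNoetherianRing R] : Module.Finite R D.oo :=
  Module.Finite.of_injective D.oo.val.toLinearMap Subtype.val_injective

theorem isNoetherianRing_oo [IsNoetherianRing R] : IsNoetherianRing D.oo :=
  have := D.finite_oo
  IsNoetherianRing.of_finite R D.oo

variable [IsDomain R]

theorem d_ne_zero : D.f * D.s ≠ 0 := mul_ne_zero D.irr.ne_zero D.s_ne_zero

theorem algebraMap_mem {r : R} (hr : r ≠ 0) : algebraMap R D.oo r ∈ D.oo⁰ := by
  rw [mem_nonZeroDivisors_iff_left]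
  intro z hz
  ext k
  have := congrArg (D.pr k) hz
  rw [map_mul, AlgHom.commutes, map_zero] at this
  exact (mul_eq_zero.mp this).resolve_left hr

theorem pr_ne_zero (i : Fin 3) {z : D.oo} (hz : z ∈ D.oo⁰) : D.pr i z ≠ 0 := by
  intro h
  have h1 : z * D.aa i = 0 := by
    ext k
    simp only [aa, MulMemClass.coe_mul, Pi.mul_apply, ZeroMemClass.coe_zero, Pi.zero_apply]
    by_cases hk : k = i
    · subst hk
      rw [pr_apply] at h
      simp [h]
    · simp [hk]
  have h2 := (mem_nonZeroDivisors_iff_left.mp hz) _ h1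
  have h3 := congrArg (D.pr i) h2
  simp only [pr_apply, aa, Pi.single_eq_same, ZeroMemClass.coe_zero, Pi.zero_apply] at h3
  exact D.d_ne_zero h3

theorem not_s_dvd : ¬ algebraMap R D.oo D.s ∣ D.aa 2 := by
  rintro ⟨z, hz⟩
  have h : ∀ i, (Pi.single 2 (D.f * D.s) : Fin 3 → R) i = D.s * z.1 i := fun i => by
    have := congrArg (D.pr i) hz
    rwa [map_mul, AlgHom.commutes] at this
  have h0 : z.1 0 = 0 := by
    have := h 0
    simp only [Fin.isValue, ne_eq, Fin.reduceEq, not_false_eq_true, Pi.single_eq_of_ne] at this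
    exact (mul_eq_zero.mp this.symm).resolve_left D.s_ne_zero
  have h1 : z.1 1 = 0 := by
    have := h 1
    simp only [Fin.isValue, ne_eq, Fin.reduceEq, not_false_eq_true, Pi.single_eq_of_ne] at this
    exact (mul_eq_zero.mp this.symm).resolve_left D.s_ne_zero
  have h2 : z.1 2 = D.f := by
    have := h 2
    simp only [Fin.isValue, Pi.single_eq_same] at this
    apply mul_left_cancel₀ D.s_ne_zero
    rw [← this, mul_comm]
  obtain ⟨x, y, a, hxy, e0, e1⟩ := z.2
  rw [h0, h2] at e0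
  rw [h1, h2] at e1
  have hx : x = -1 := by
    apply mul_left_cancel₀ D.irr.ne_zero
    linear_combination -e0
  have h3 : D.t * (y + D.t) = D.s * (D.s * (1 + D.s) - a) := by
    linear_combination -e1 - D.hf
  have h4 := Ideal.sub_mem _ (D.mem_of_t_mul h3) D.ht
  rw [add_sub_cancel_right] at h4
  have h5 := Ideal.add_mem _ hxy h4
  rw [sub_add_cancel, hx] at h5
  exact h5 isUnit_one.neg

omit [IsDomain R] in
/-- The divisibility form of saturation. -/
theorem mem_of_dvd (z : D.oo) (e : Fin 3 → R) (h02 : z.1 0 - z.1 2 ∣ e 0 - e 2)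
    (h12 : z.1 1 - z.1 2 ∣ e 1 - e 2) (h01 : z.1 0 - z.1 1 ∣ e 0 - e 1) : e ∈ D.oo := by
  obtain ⟨x, y, a, hxy, e0, e1⟩ := z.2
  obtain ⟨u, hu⟩ := h02
  obtain ⟨w, hw⟩ := h12
  obtain ⟨p, hp⟩ := h01
  have e2 : z.1 0 - z.1 1 = D.f * x - (D.t * y + D.s * a) := by linear_combination e0 - e1
  rw [e0] at hu
  rw [e1] at hw
  rw [e2] at hp
  refine ⟨x * u, y * w, a * w, ?_, by rw [hu]; ring, by rw [hw]; ring⟩
  by_cases hx : x ∈ maximalIdeal R
  · have hy : y ∈ maximalIdeal R := by
      have := Ideal.sub_mem _ hx hxy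
      rwa [sub_sub_cancel] at this
    exact Ideal.sub_mem _ (Ideal.mul_mem_right _ _ hx) (Ideal.mul_mem_right _ _ hy)
  · have hy : y ∉ maximalIdeal R := by
      intro hy
      have := Ideal.add_mem _ hxy hy
      rw [sub_add_cancel] at this
      exact hx this
    have key : D.f * (x * (u - p)) = (D.t * y + D.s * a) * (w - p) := by
      linear_combination hp + hw - hu
    have hb : w - p ∈ maximalIdeal R := by
      have h3 : D.t * (y * (w - p) - D.t * (x * (u - p))) =
          D.s * (-(a * (w - p)) - D.s * (1 + D.s) * (x * (u - p))) := by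
        linear_combination -key + (x * (u - p)) * D.hf
      have h4 := Ideal.add_mem _ (D.mem_of_t_mul h3)
        (Ideal.mul_mem_right (x * (u - p)) _ D.ht)
      rw [sub_add_cancel] at h4
      exact ((maximalIdeal.isMaximal R).isPrime.mem_or_mem h4).resolve_left hy
    have ha : u - p ∈ maximalIdeal R := by
      by_contra ha
      have hxu : IsUnit (x * (u - p)) :=
        (notMem_maximalIdeal.mp hx).mul (notMem_maximalIdeal.mp ha)
      obtain ⟨v, hv⟩ := hxu
      apply D.f_ne_mul (Ideal.add_mem _ (Ideal.mul_mem_right y _ D.ht)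
        (Ideal.mul_mem_right a _ D.hs)) (Ideal.mul_mem_right (↑v⁻¹) _ hb)
      rw [← mul_assoc, ← key, ← hv, mul_assoc]
      simp
    have : x * u - y * w = (x - y) * u + y * ((u - p) - (w - p)) := by ring
    rw [this]
    exact Ideal.add_mem _ (Ideal.mul_mem_right _ _ hxy)
      (Ideal.mul_mem_left _ _ (Ideal.sub_mem _ ha hb))

end Data

end Pool.Agent.P.MP_4fa782_ag
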