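import Pool.Agent.P.MP_4fa782_ag.Order

namespace Pool.Agent.P.MP_4fa782_ag

open IsLocalRing
open scoped nonZeroDivisors

section general

variable (R o : Type) [CommRing R] [IsDomain R] [CommRing o] [Algebra R o]

/-- The conjugates of the total ring of quotients. -/
abbrev Conj : Type := FractionRing o →ₐ[R] AlgebraicClosure (FractionRing R)

theorem algebraMap_algebraicClosure_injective :
    Function.Injective (algebraMap R (AlgebraicClosure (FractionRing R))) := by
  rw [IsScalarTower.algebraMap_eq R (FractionRing R) (AlgebraicClosure (FractionRing R))]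
  exact (algebraMap (FractionRing R) (AlgebraicClosure (FractionRing R))).injective.comp
    (IsFractionRing.injective R (FractionRing R))

theorem range_le_saturation : (algebraMap o (FractionRing o)).range ≤ saturation R o :=
  le_sInf fun _ hS => hS.1

theorem saturation_eq_range (h : IsSaturated R o (algebraMap o (FractionRing o)).range) :
    saturation R o = (algebraMap o (FractionRing o)).range := by
  refine le_antisymm (sInf_le ⟨le_rfl, ?_, h⟩) (range_le_saturation R o)
  rintro _ ⟨x, rfl⟩
  exact isIntegral_algebraMap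

theorem mem_saturation {ζ : o} {η : FractionRing o} (h1 : IsIntegral o η)
    (h2 : Dominates R (FractionRing o) (AlgebraicClosure (FractionRing R)) η
      (algebraMap o (FractionRing o) ζ)) : η ∈ saturation R o :=
  Subring.mem_sInf.mpr fun _ hS => hS.2.2 _ (hS.1 ⟨ζ, rfl⟩) η h1 h2

/-- A sufficient condition for domination. -/
theorem dominates_of_forall {η ζ : FractionRing o}
    (h : ∀ ψ φ : Conj R o, ∃ r : R, ψ η - φ η = algebraMap R _ r * (ψ ζ - φ ζ)) :
    Dominates R (FractionRing o) (AlgebraicClosure (FractionRing R)) η ζ := by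
  intro ψ φ
  obtain ⟨r, hr⟩ := h ψ φ
  constructor
  · intro h1
    rw [h1, sub_self, mul_zero] at hr
    exact sub_eq_zero.mp hr
  · intro h1
    rw [hr, mul_div_cancel_right₀ _ (sub_ne_zero.mpr h1)]
    refine ⟨?_, isIntegral_algebraMap⟩
    apply Subfield.subset_closure
    exact Set.mem_iUnion.mpr ⟨ψ, algebraMap R _ r, ψ.commutes r⟩

end general

namespace Data

variable {R : Type} [CommRing R] [IsLocalRing R] [IsDomain R] (D : Data R)

/-- The three conjugates of the total ring of quotients. -/
noncomputable def psi (i : Fin 3) : Conj R D.oo :=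
  IsLocalization.liftAlgHom (M := D.oo⁰)
    (f := (Algebra.ofId R (AlgebraicClosure (FractionRing R))).comp (D.pr i))
    (fun y => by
      apply IsUnit.mk0
      simp only [AlgHom.coe_comp, Function.comp_apply, Algebra.ofId_apply]
      exact (map_ne_zero_iff _ (algebraMap_algebraicClosure_injective R)).mpr
        (D.pr_ne_zero i y.2))

theorem psi_algebraMap (i : Fin 3) (z : D.oo) :
    D.psi i (algebraMap D.oo (FractionRing D.oo) z) =
      algebraMap R (AlgebraicClosure (FractionRing R)) (z.1 i) := by
  simp [psi, pr_apply]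

omit [IsLocalRing R] in
theorem dvd_of_isIntegral [IsIntegrallyClosed R] {a b : R} (hb : b ≠ 0)
    (h : IsIntegral R (algebraMap R (AlgebraicClosure (FractionRing R)) a /
      algebraMap R (AlgebraicClosure (FractionRing R)) b)) : b ∣ a := by
  have h1 : algebraMap R (AlgebraicClosure (FractionRing R)) a /
      algebraMap R (AlgebraicClosure (FractionRing R)) b =
      algebraMap (FractionRing R) (AlgebraicClosure (FractionRing R))
        (algebraMap R (FractionRing R) a / algebraMap R (FractionRing R) b) := by
    rw [map_div₀, ← IsScalarTower.algebraMap_apply, ← IsScalarTower.algebraMap_apply]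
  rw [h1, isIntegral_algebraMap_iff (RingHom.injective _)] at h
  obtain ⟨c, hc⟩ := IsIntegrallyClosed.algebraMap_eq_of_integral h
  refine ⟨c, ?_⟩
  apply IsFractionRing.injective R (FractionRing R)
  have hb' : algebraMap R (FractionRing R) b ≠ 0 :=
    (map_ne_zero_iff _ (IsFractionRing.injective R _)).mpr hb
  rw [map_mul, hc]
  field_simp

theorem isSaturated [IsNoetherianRing R] [IsIntegrallyClosed R] :
    IsSaturated R D.oo (algebraMap D.oo (FractionRing D.oo)).range := by
  rintro _ ⟨z, rfl⟩ η hη hdom
  have := D.finite_oo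
  have hinj := algebraMap_algebraicClosure_injective R
  have hη' : IsIntegral R η := isIntegral_trans _ hη
  obtain ⟨⟨a, b⟩, hab⟩ := IsLocalization.surj D.oo⁰ η
  have hb : ∀ i, (b : D.oo).1 i ≠ 0 := fun i => D.pr_ne_zero i b.2
  have h1 : ∀ i, D.psi i η * algebraMap R _ ((b : D.oo).1 i) = algebraMap R _ (a.1 i) := by
    intro i
    have := congrArg (D.psi i) hab
    rwa [map_mul, psi_algebraMap, psi_algebraMap] at this
  have h2 : ∀ i, ∃ e : R, a.1 i = (b : D.oo).1 i * e := by
    intro i
    apply dvd_of_isIntegral (hb i)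
    rw [← h1 i, mul_div_cancel_right₀ _ ((map_ne_zero_iff _ hinj).mpr (hb i))]
    exact hη'.map (D.psi i)
  choose e he using h2
  have h3 : ∀ i, D.psi i η = algebraMap R _ (e i) := by
    intro i
    apply mul_right_cancel₀ ((map_ne_zero_iff _ hinj).mpr (hb i))
    rw [h1 i, he i, map_mul, mul_comm]
  have h4 : ∀ i j, z.1 i - z.1 j ∣ e i - e j := by
    intro i j
    obtain ⟨k1, k2⟩ := hdom (D.psi i) (D.psi j)
    rw [psi_algebraMap, psi_algebraMap, h3, h3] at k1 k2
    by_cases hij : z.1 i = z.1 j
    · rw [hinj (k1 (by rw [hij])), sub_self (e j)]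
      exact dvd_zero _
    · apply dvd_of_isIntegral (sub_ne_zero.mpr hij)
      rw [map_sub, map_sub]
      exact (k2 (fun h => hij (hinj h))).2
  refine ⟨⟨e, D.mem_of_dvd z e (h4 0 2) (h4 1 2) (h4 0 1)⟩, ?_⟩
  apply (IsLocalization.map_units (FractionRing D.oo) b).mul_right_cancel
  rw [hab, ← map_mul]
  congr 1
  ext i
  simp [he i, mul_comm]

end Data

end Pool.Agent.P.MP_4fa782_ag
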